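import Mathlib

/-!
# The degree of a field of rational functions over the field generated by an element

`E` is generated over `k` by a finite extension `M` and one element `t`. If `z = P(t) / Q(t)` is
transcendental, `P` and `Q` of degree at most `n` over `M`, then `[E : k(z)] ≤ [M : k] n`.
-/

set_option autoImplicit false

namespace Pool.Agent.TH577.RF

open Polynomial Module IntermediateField

theorem degree_bound {k E : Type*} [Field k] [Field E] [Algebra k E] (M : IntermediateField k E)
    [FiniteDimensional k M] (t z : E) (htop : adjoin k ((M : Set E) ∪ {t}) = ⊤)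
    (hz : Transcendental k z) (n : ℕ) (P Q : M[X]) (hP : P.natDegree ≤ n) (hQ : Q.natDegree ≤ n)
    (hQ0 : Q ≠ 0) (hzPQ : z * aeval t Q = aeval t P) :
    FiniteDimensional k⟮z⟯ E ∧ finrank k⟮z⟯ E ≤ finrank k M * n := by
  classical
  let K1 : IntermediateField k⟮z⟯ E := adjoin k⟮z⟯ (M : Set E)
  have hMK : ∀ x : M, (x : E) ∈ K1 := fun x => subset_adjoin k⟮z⟯ _ x.2
  have h1 : Module.rank k⟮z⟯ K1 ≤ Module.rank k M := adjoin_rank_le_of_isAlgebraic_right k⟮z⟯ M
  have h2 : FiniteDimensional k⟮z⟯ K1 :=
    Module.rank_lt_aleph0_iff.1 (h1.trans_lt (Module.rank_lt_aleph0 k M))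
  have h3 : finrank k⟮z⟯ K1 ≤ finrank k M := by
    rw [← Module.finrank_eq_rank, ← Module.finrank_eq_rank] at h1
    exact_mod_cast h1
  let ι : M →+* K1 :=
    { toFun := fun x => ⟨(x : E), hMK x⟩
      map_one' := rfl
      map_mul' := fun _ _ => rfl
      map_zero' := rfl
      map_add' := fun _ _ => rfl }
  let z1 : K1 := algebraMap k⟮z⟯ K1 ⟨z, mem_adjoin_simple_self k z⟩
  have hz1 : ((z1 : K1) : E) = z := rfl
  let g : K1[X] := P.map ι - C z1 * Q.map ι
  have hιE : (algebraMap K1 E).comp ι = algebraMap M E := rfl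
  have hg0 : g ≠ 0 := by
    intro hg
    obtain ⟨a, hk⟩ : ∃ a, Q.coeff a ≠ 0 := by
      by_contra hcon
      push Not at hcon
      exact hQ0 (Polynomial.ext fun a => by simp [hcon a])
    have h4 : g.coeff a = 0 := by rw [hg]; simp
    have h5 : ι (P.coeff a) = z1 * ι (Q.coeff a) := by
      have : g.coeff a = ι (P.coeff a) - z1 * ι (Q.coeff a) := by
        simp [g, coeff_map]
      rw [this] at h4
      exact sub_eq_zero.1 h4
    have h6 : ((P.coeff a : M) : E) = z * ((Q.coeff a : M) : E) := by
      have := congrArg (fun x : K1 => (x : E)) h5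
      exact this
    have h7 : ((Q.coeff a : M) : E) ≠ 0 := by
      intro h
      exact hk (by exact_mod_cast h)
    have h8 : z = ((P.coeff a / Q.coeff a : M) : E) := by
      push_cast
      rw [h6, mul_div_assoc, div_self h7, mul_one]
    apply hz
    rw [h8]
    have h9 : Algebra.IsAlgebraic k M := Algebra.IsAlgebraic.of_finite k M
    exact (h9.isAlgebraic (P.coeff a / Q.coeff a : M)).algebraMap
  have hgn : g.natDegree ≤ n := by
    refine (natDegree_sub_le _ _).trans (max_le ((natDegree_map_le).trans hP) ?_)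
    exact (natDegree_C_mul_le _ _).trans ((natDegree_map_le).trans hQ)
  have hgt : aeval t g = 0 := by
    have e1 : aeval t (P.map ι) = aeval t P := by
      rw [aeval_def, eval₂_map, hιE, ← aeval_def]
    have e2 : aeval t (Q.map ι) = aeval t Q := by
      rw [aeval_def, eval₂_map, hιE, ← aeval_def]
    have e3 : algebraMap K1 E z1 = z := rfl
    simp only [g, map_sub, map_mul, aeval_C, e1, e2, e3, hzPQ, sub_self]
  have hint : IsIntegral K1 t := (IsAlgebraic.isIntegral ⟨g, hg0, hgt⟩)
  have hmin : (minpoly K1 t).natDegree ≤ n :=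
    (natDegree_le_of_dvd (minpoly.dvd K1 t hgt) hg0).trans hgn
  have hst : IsScalarTower k K1 E := IsScalarTower.of_algebraMap_eq fun x => rfl
  have hK2 : (adjoin K1 {t} : IntermediateField K1 E) = ⊤ := by
    rw [eq_top_iff]
    intro x _
    have hx : x ∈ adjoin k ((M : Set E) ∪ {t}) := by rw [htop]; trivial
    have hle : adjoin k ((M : Set E) ∪ {t}) ≤
        (adjoin K1 {t} : IntermediateField K1 E).restrictScalars k := by
      rw [adjoin_le_iff]
      rintro y (hy | hy)
      · have : (algebraMap K1 E) ⟨y, hMK ⟨y, hy⟩⟩ ∈ (adjoin K1 {t} : IntermediateField K1 E) :=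
          IntermediateField.algebraMap_mem _ _
        exact this
      · rw [Set.mem_singleton_iff.1 hy]
        exact mem_adjoin_simple_self K1 t
    exact hle hx
  have hfin1 : FiniteDimensional K1 (adjoin K1 {t} : IntermediateField K1 E) :=
    adjoin.finiteDimensional hint
  have hfr1 : finrank K1 (adjoin K1 {t} : IntermediateField K1 E) ≤ n := by
    rw [adjoin.finrank hint]; exact hmin
  rw [hK2] at hfin1 hfr1
  have hfin2 : FiniteDimensional K1 E := by
    exact Module.Finite.equiv (IntermediateField.topEquiv (F := K1) (E := E)).toLinearEquiv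
  rw [IntermediateField.finrank_top'] at hfr1
  have hfin3 : FiniteDimensional k⟮z⟯ E := FiniteDimensional.trans k⟮z⟯ K1 E
  refine ⟨hfin3, ?_⟩
  rw [← Module.finrank_mul_finrank k⟮z⟯ K1 E]
  exact Nat.mul_le_mul h3 hfr1

end Pool.Agent.TH577.RF
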