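import Pool.Agent.W243.TD.Deg
import Pool.Agent.W242.GG.Count
import Pool.Agent.TH577.RF.Deg

/-!
# Exponentials of rational functions over number fields
-/

set_option autoImplicit false

namespace Pool.Agent.TH577.RF

open Polynomial Module IntermediateField
open Pool.Agent.W243.TD

/-- The values at `t` of the rational functions `P / Q` with coefficients in `M` and of degree at
most `n`. -/
def Val {E : Type} [Field E] [Algebra ℚ E] (M : IntermediateField ℚ E) (t : E) (n : ℕ) : Set E :=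
  {z | ∃ P Q : M[X], P.natDegree ≤ n ∧ Q.natDegree ≤ n ∧ aeval t Q ≠ 0 ∧
    z = aeval t P / aeval t Q}

theorem rank_span_le_of {V : Type} [AddCommGroup V] [Module ℚ V] (S : Set V) (B : ℕ)
    (h : ∀ (N : ℕ) (z : Fin N → V), LinearIndependent ℚ z → (∀ i, z i ∈ S) → N ≤ B) :
    Module.rank ℚ (Submodule.span ℚ S) ≤ B := by
  classical
  obtain ⟨b, hb1, hb2, hb3⟩ := exists_linearIndependent ℚ S
  rw [← hb2, rank_span_set hb3]
  apply Cardinal.card_le_of
  intro s
  refine h s.card (fun i => ((s.equivFin.symm i : b) : V)) ?_ ?_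
  · exact hb3.comp (fun i => (s.equivFin.symm i : b))
      (Subtype.val_injective.comp s.equivFin.symm.injective)
  · intro i
    exact hb1 (s.equivFin.symm i : b).2

theorem mem_of_alg {M : IntermediateField ℚ ℂ} (hM : Algebra.IsAlgebraic ℚ M) {t : ℂ}
    (ht : Transcendental ℚ t) {n : ℕ} {z : ℂ} (hz : z ∈ Val M t n) (ha : IsAlgebraic ℚ z) :
    z ∈ M := by
  classical
  obtain ⟨P, Q, -, -, hQ, hzPQ⟩ := hz
  let A := algebraicClosure ℚ ℂ
  have hMA : ∀ x : M, (x : ℂ) ∈ A := fun x =>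
    mem_algebraicClosure_iff.2 ((hM.isAlgebraic x).algebraMap (A := ℂ))
  let ι : M →+* A :=
    { toFun := fun x => ⟨(x : ℂ), hMA x⟩
      map_one' := rfl
      map_mul' := fun _ _ => rfl
      map_zero' := rfl
      map_add' := fun _ _ => rfl }
  let z1 : A := ⟨z, mem_algebraicClosure_iff.2 ha⟩
  let g : A[X] := P.map ι - C z1 * Q.map ι
  have hιE : (algebraMap A ℂ).comp ι = algebraMap M ℂ := rfl
  have hgt : aeval t g = 0 := by
    have e1 : aeval t (P.map ι) = aeval t P := by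
      rw [aeval_def, eval₂_map, hιE, ← aeval_def]
    have e2 : aeval t (Q.map ι) = aeval t Q := by
      rw [aeval_def, eval₂_map, hιE, ← aeval_def]
    have e3 : algebraMap A ℂ z1 = z := rfl
    simp only [g, map_sub, map_mul, aeval_C, e1, e2, e3, hzPQ]
    rw [div_mul_cancel₀ _ hQ, sub_self]
  have hg0 : g = 0 := by
    by_contra hg0
    apply ht
    have h1 : IsAlgebraic A t := ⟨g, hg0, hgt⟩
    have hA : Algebra.IsAlgebraic ℚ A := ⟨fun x =>
      (isAlgebraic_algebraMap_iff (algebraMap A ℂ).injective).1 (mem_algebraicClosure_iff.1 x.2)⟩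
    exact h1.restrictScalars ℚ
  have hQ0 : Q ≠ 0 := by
    rintro rfl
    simp at hQ
  obtain ⟨a, hk⟩ : ∃ a, Q.coeff a ≠ 0 := by
    by_contra hcon
    push Not at hcon
    exact hQ0 (Polynomial.ext fun a => by simp [hcon a])
  have h4 : g.coeff a = 0 := by rw [hg0]; simp
  have h5 : ι (P.coeff a) = z1 * ι (Q.coeff a) := by
    have : g.coeff a = ι (P.coeff a) - z1 * ι (Q.coeff a) := by
      simp [g, coeff_map]
    rw [this] at h4
    exact sub_eq_zero.1 h4
  have h6 : ((P.coeff a : M) : ℂ) = z * ((Q.coeff a : M) : ℂ) :=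
    congrArg (fun x : A => (x : ℂ)) h5
  have h7 : ((Q.coeff a : M) : ℂ) ≠ 0 := by
    intro h
    exact hk (by exact_mod_cast h)
  have h8 : z = ((P.coeff a / Q.coeff a : M) : ℂ) := by
    push_cast
    rw [h6, mul_div_assoc, div_self h7, mul_one]
  rw [h8]
  exact (P.coeff a / Q.coeff a : M).2

theorem val_add {M : IntermediateField ℚ ℂ} {t : ℂ} {n : ℕ} {z β : ℂ} (hz : z ∈ Val M t n)
    (hβ : β ∈ M) : β + z ∈ Val M t n := by
  obtain ⟨P, Q, hP, hQ, hQt, hzPQ⟩ := hz
  refine ⟨C ⟨β, hβ⟩ * Q + P, Q, ?_, hQ, hQt, ?_⟩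
  · exact (natDegree_add_le _ _).trans (max_le ((natDegree_C_mul_le _ _).trans hQ) hP)
  · have e : aeval t (C (⟨β, hβ⟩ : M) * Q + P) = β * aeval t Q + aeval t P := by
      rw [map_add, map_mul, aeval_C]
      rfl
    rw [e, add_div, mul_div_assoc, div_self hQt, mul_one, hzPQ]

/-- the field generated by `M` and `t` -/
noncomputable def Fld (M : IntermediateField ℚ ℂ) (t : ℂ) : IntermediateField ℚ ℂ :=
  adjoin ℚ ((M : Set ℂ) ∪ {t})

theorem le_fld (M : IntermediateField ℚ ℂ) (t : ℂ) : M ≤ Fld M t := fun _ hx =>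
  subset_adjoin ℚ _ (Or.inl hx)

theorem t_mem (M : IntermediateField ℚ ℂ) (t : ℂ) : t ∈ Fld M t :=
  subset_adjoin ℚ _ (Or.inr rfl)

theorem aeval_mem (M : IntermediateField ℚ ℂ) (t : ℂ) (P : M[X]) : aeval t P ∈ Fld M t := by
  rw [aeval_eq_sum_range]
  refine sum_mem fun i _ => ?_
  rw [Algebra.smul_def]
  exact mul_mem (le_fld M t (P.coeff i).2) (pow_mem (t_mem M t) i)

theorem val_mem {M : IntermediateField ℚ ℂ} {t : ℂ} {n : ℕ} {z : ℂ} (hz : z ∈ Val M t n) :
    z ∈ Fld M t := by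
  obtain ⟨P, Q, -, -, -, rfl⟩ := hz
  exact div_mem (aeval_mem M t P) (aeval_mem M t Q)

/-- `M` as a subfield of the field generated by `M` and `t` -/
noncomputable def sub (M : IntermediateField ℚ ℂ) (t : ℂ) : IntermediateField ℚ (Fld M t) :=
  (Subfield.comap (algebraMap (Fld M t) ℂ) M.toSubfield).toIntermediateField (by
    intro q
    show algebraMap (Fld M t) ℂ (algebraMap ℚ (Fld M t) q) ∈ M
    have : algebraMap (Fld M t) ℂ (algebraMap ℚ (Fld M t) q) = algebraMap ℚ ℂ q := by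
      simp
    rw [this]
    exact M.algebraMap_mem q)

theorem mem_sub {M : IntermediateField ℚ ℂ} {t : ℂ} {x : Fld M t} : x ∈ sub M t ↔ (x : ℂ) ∈ M :=
  Iff.rfl

/-- the isomorphism -/
noncomputable def eqv (M : IntermediateField ℚ ℂ) (t : ℂ) : M ≃+* sub M t where
  toFun x := ⟨⟨(x : ℂ), le_fld M t x.2⟩, x.2⟩
  invFun x := ⟨((x : Fld M t) : ℂ), x.2⟩
  left_inv _ := rfl
  right_inv _ := rfl
  map_mul' _ _ := rfl
  map_add' _ _ := rfl

theorem eqv_coe (M : IntermediateField ℚ ℂ) (t : ℂ) (x : M) :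
    (((eqv M t x : sub M t) : Fld M t) : ℂ) = x := rfl

theorem sub_finrank (M : IntermediateField ℚ ℂ) (t : ℂ) [FiniteDimensional ℚ M] :
    FiniteDimensional ℚ (sub M t) ∧ finrank ℚ (sub M t) = finrank ℚ M := by
  let f : M ≃ₗ[ℚ] sub M t :=
    LinearEquiv.ofBijective (AddMonoidHom.toRatLinearMap ((eqv M t).toAddEquiv.toAddMonoidHom))
      (eqv M t).bijective
  exact ⟨Module.Finite.equiv f, f.finrank_eq.symm⟩

theorem sub_top (M : IntermediateField ℚ ℂ) (t : ℂ) :
    adjoin ℚ ((sub M t : Set (Fld M t)) ∪ {(⟨t, t_mem M t⟩ : Fld M t)}) = ⊤ := by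
  rw [eq_top_iff]
  rintro ⟨x, hx⟩ _
  induction hx using adjoin_induction with
  | mem x hx =>
    apply subset_adjoin
    rcases hx with hx | hx
    · exact Or.inl hx
    · exact Or.inr (Subtype.ext hx)
  | algebraMap q =>
    have h1 : (⟨algebraMap ℚ ℂ q, IntermediateField.algebraMap_mem _ q⟩ : Fld M t) =
        algebraMap ℚ (Fld M t) q := Subtype.ext (by simp)
    rw [h1]
    exact IntermediateField.algebraMap_mem _ q
  | add x y hx hy h1 h2 => exact add_mem (h1 trivial) (h2 trivial)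
  | inv x hx h1 => exact inv_mem (h1 trivial)
  | mul x y hx hy h1 h2 => exact mul_mem (h1 trivial) (h2 trivial)

theorem fld_degree {M : IntermediateField ℚ ℂ} [FiniteDimensional ℚ M] {t : ℂ} {n : ℕ} {z : ℂ}
    (hz : z ∈ Val M t n) (hzt : Transcendental ℚ z) :
    FiniteDimensional ℚ⟮(⟨z, val_mem hz⟩ : Fld M t)⟯ (Fld M t) ∧
      finrank ℚ⟮(⟨z, val_mem hz⟩ : Fld M t)⟯ (Fld M t) ≤ finrank ℚ M * n := by
  have hz' := hz
  obtain ⟨P, Q, hP, hQ, hQt, hzPQ⟩ := hz'
  obtain ⟨hfin, hfr⟩ := sub_finrank M t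
  let e : M →+* sub M t := (eqv M t : M →+* sub M t)
  have hev : ∀ R : M[X], ((aeval (⟨t, t_mem M t⟩ : Fld M t) (R.map e) : Fld M t) : ℂ) =
      aeval t R := by
    intro R
    have h1 : ((aeval (⟨t, t_mem M t⟩ : Fld M t) (R.map e) : Fld M t) : ℂ) =
        (algebraMap (Fld M t) ℂ) (eval₂ (algebraMap (sub M t) (Fld M t)) ⟨t, t_mem M t⟩ (R.map e)) :=
      rfl
    rw [h1, hom_eval₂, eval₂_map]
    rfl
  rw [← hfr]
  refine degree_bound (sub M t) ⟨t, t_mem M t⟩ ⟨z, val_mem hz⟩ (sub_top M t) ?_ n (P.map e)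
    (Q.map e) (natDegree_map_le.trans hP) (natDegree_map_le.trans hQ) ?_ ?_
  · intro h
    exact hzt (h.algebraMap (A := ℂ))
  · intro h
    rw [Polynomial.map_eq_zero_iff (eqv M t).injective] at h
    rw [h] at hQt
    simp at hQt
  · apply Subtype.ext
    have h1 := hev P
    have h2 := hev Q
    have h3 : (((⟨z, val_mem hz⟩ : Fld M t) * (aeval (⟨t, t_mem M t⟩ : Fld M t)
      (Q.map e)) : Fld M t) : ℂ) = z * ((aeval (⟨t, t_mem M t⟩ : Fld M t)
      (Q.map e) : Fld M t) : ℂ) := rfl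
    rw [h3, h1, h2, hzPQ, div_mul_cancel₀ _ hQt]

theorem shift_li {N : ℕ} {z : Fin N → ℂ} (hz : LinearIndependent ℚ z) (c : Fin N → ℚ) (j : Fin N)
    (hj : c j = 0) : LinearIndependent ℚ (fun i => c i • z j + z i) := by
  classical
  rw [Fintype.linearIndependent_iff] at hz ⊢
  intro g hg
  set S := ∑ k, g k * c k with hS
  have h1 : ∑ i, (g i + if i = j then S else 0) • z i = 0 := by
    simp only [add_smul, Finset.sum_add_distrib, ite_smul, zero_smul, Finset.sum_ite_eq',
      Finset.mem_univ, if_true]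
    rw [hS, Finset.sum_smul, ← hg, ← Finset.sum_add_distrib]
    refine Finset.sum_congr rfl fun i _ => ?_
    rw [smul_add, mul_smul, add_comm]
  have h2 := hz _ h1
  have h3 : ∀ i, i ≠ j → g i = 0 := by
    intro i hi
    have := h2 i
    simpa [hi] using this
  have h4 : S = 0 := by
    rw [hS]
    apply Finset.sum_eq_zero
    intro k _
    by_cases hk : k = j
    · rw [hk, hj, mul_zero]
    · rw [h3 k hk, zero_mul]
  intro i
  by_cases hi : i = j
  · have := h2 i
    simpa [hi, h4] using this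
  · exact h3 i hi

theorem coe_li {F : IntermediateField ℚ ℂ} {N : ℕ} {z : Fin N → F}
    (hz : LinearIndependent ℚ (fun i => ((z i : F) : ℂ))) : LinearIndependent ℚ z := by
  rw [Fintype.linearIndependent_iff] at hz ⊢
  intro c hc j
  apply hz c _ j
  have h2 := congrArg (algebraMap F ℂ) hc
  rw [map_sum, map_zero] at h2
  rw [← h2]
  refine Finset.sum_congr rfl fun i _ => ?_
  rw [Rat.smul_def, Rat.smul_def, map_mul, map_ratCast]
  rfl

theorem fin_bound {M : IntermediateField ℚ ℂ} [FiniteDimensional ℚ M] {t y : ℂ}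
    (ht : Transcendental ℚ t) (hy : y ≠ 0) {n : ℕ} (hn : 1 ≤ n) {N : ℕ} (z : Fin N → ℂ)
    (hz : LinearIndependent ℚ z) (hv : ∀ i, z i ∈ Val M t n)
    (he : ∀ i, Al t (Complex.exp (y * z i))) :
    N ≤ 8 * finrank ℚ M * n - 2 ∧ (Al t y → N ≤ 4 * finrank ℚ M * n) := by
  classical
  have hM : Algebra.IsAlgebraic ℚ M := Algebra.IsAlgebraic.of_finite ℚ M
  have hD : 1 ≤ finrank ℚ M := Module.finrank_pos
  have hDn : finrank ℚ M ≤ finrank ℚ M * n := Nat.le_mul_of_pos_right _ hn
  by_cases hall : ∀ i, IsAlgebraic ℚ (z i)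
  · have h1 : ∀ i, z i ∈ M := fun i => mem_of_alg hM ht (hv i) (hall i)
    have h2 : LinearIndependent ℚ (fun i => (⟨z i, h1 i⟩ : M)) := coe_li hz
    have h3 := h2.fintype_card_le_finrank
    rw [Fintype.card_fin] at h3
    have h4 : 8 * finrank ℚ M * n = 8 * (finrank ℚ M * n) := by ring
    have h5 : 4 * finrank ℚ M * n = 4 * (finrank ℚ M * n) := by ring
    rw [h4, h5]
    exact ⟨by omega, fun _ => by omega⟩
  push Not at hall
  obtain ⟨j, hj⟩ := hall
  let c : Fin N → ℚ := fun i => if IsAlgebraic ℚ (z i) then 1 else 0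
  have hcj : c j = 0 := by simp only [c, if_neg hj]
  let w : Fin N → ℂ := fun i => c i • z j + z i
  have hw : LinearIndependent ℚ w := shift_li hz c j hcj
  have hwt : ∀ i, Transcendental ℚ (w i) := by
    intro i
    by_cases hi : IsAlgebraic ℚ (z i)
    · intro h
      apply hj
      have h1 : w i - z i = z j := by
        simp only [w, c, if_pos hi, one_smul, add_sub_cancel_right]
      rw [← h1]
      exact h.sub hi
    · have h1 : w i = z i := by simp only [w, c, if_neg hi, zero_smul, zero_add]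
      rw [h1]
      exact hi
  have hwv : ∀ i, w i ∈ Val M t n := by
    intro i
    by_cases hi : IsAlgebraic ℚ (z i)
    · have h1 : w i = z i + z j := by
        simp only [w, c, if_pos hi, one_smul, add_comm]
      rw [h1]
      exact val_add (hv j) (mem_of_alg hM ht (hv i) hi)
    · have h1 : w i = z i := by simp only [w, c, if_neg hi, zero_smul, zero_add]
      rw [h1]
      exact hv i
  have hwe : ∀ i, Al t (Complex.exp (y * w i)) := by
    intro i
    by_cases hi : IsAlgebraic ℚ (z i)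
    · have h1 : w i = z i + z j := by
        simp only [w, c, if_pos hi, one_smul, add_comm]
      rw [h1, mul_add, Complex.exp_add]
      exact (he i).mul (he j)
    · have h1 : w i = z i := by simp only [w, c, if_neg hi, zero_smul, zero_add]
      rw [h1]
      exact he i
  let u : Fin N → Fld M t := fun i => ⟨w i, val_mem (hwv i)⟩
  have hu : LinearIndependent ℚ u := coe_li hw
  have hf : ∀ i, FiniteDimensional ℚ⟮u i⟯ (Fld M t) := fun i => (fld_degree (hwv i) (hwt i)).1
  have hfr : ∀ i, finrank ℚ⟮u i⟯ (Fld M t) ≤ finrank ℚ M * n :=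
    fun i => (fld_degree (hwv i) (hwt i)).2
  have htr : ¬ Algebra.IsAlgebraic ℚ (Fld M t) := by
    intro h
    apply ht
    have := h.isAlgebraic (⟨t, t_mem M t⟩ : Fld M t)
    exact this.algebraMap (A := ℂ)
  have hle : adjoin ℚ {t} ≤ Fld M t := by
    rw [adjoin_le_iff, Set.singleton_subset_iff]
    exact t_mem M t
  have hup : ∀ {x : ℂ}, Al t x → IsAlgebraic (Fld M t) x := by
    intro x hx
    unfold Al at hx
    let _ : Algebra (IntermediateField.adjoin ℚ {t}) (Fld M t) :=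
      (IntermediateField.inclusion hle).toRingHom.toAlgebra
    have _ : IsScalarTower (IntermediateField.adjoin ℚ {t}) (Fld M t) ℂ :=
      IsScalarTower.of_algebraMap_eq fun x => rfl
    exact hx.extendScalars (IntermediateField.inclusion hle).injective
  have hsum : ∑ i, finrank ℚ⟮u i⟯ (Fld M t) ≤ N * (finrank ℚ M * n) := by
    refine (Finset.sum_le_sum fun i _ => hfr i).trans ?_
    rw [Finset.sum_const, Finset.card_univ, Fintype.card_fin, smul_eq_mul]
  have hj1 := hfr j
  have hue : ∀ i, IsAlgebraic (Fld M t) (Complex.exp (y * u i)) := fun i => hup (hwe i)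
  obtain ⟨p, hp⟩ : ∃ p, p = finrank ℚ M * n := ⟨_, rfl⟩
  rw [← hp] at hsum hj1 hDn
  have h4 : 8 * finrank ℚ M * n = 8 * p := by rw [hp]; ring
  have h5 : 4 * finrank ℚ M * n = 4 * p := by rw [hp]; ring
  rw [h4, h5]
  refine ⟨?_, fun hyt => ?_⟩
  · have h := deg_L hy u hu hf htr hue j
    have h6 : (N + 1) ^ 2 + 4 ≤ 8 * (N * p + p) := h.trans (by omega)
    by_contra hcon
    push Not at hcon
    have h7 : 8 * p ≤ N + 1 := by omega
    nlinarith
  · have h := deg_1 hy u hu hf htr hue (hup hyt) j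
    have h6 : N ^ 2 + 3 ≤ 4 * (N * p + p) := h.trans (by omega)
    by_contra hcon
    push Not at hcon
    nlinarith

/-- **Exceptional rational functions.** -/
theorem rank_bound (M : IntermediateField ℚ ℂ) [FiniteDimensional ℚ M] {t y : ℂ}
    (ht : Transcendental ℚ t) (hy : y ≠ 0) {n : ℕ} (hn : 1 ≤ n) (S : Set ℂ)
    (hS : ∀ z ∈ S, z ∈ Val M t n ∧ Al t (Complex.exp (y * z))) :
    Module.rank ℚ (Submodule.span ℚ S) ≤ (8 * finrank ℚ M * n - 2 : ℕ) ∧
    (Al t y → Module.rank ℚ (Submodule.span ℚ S) ≤ (4 * finrank ℚ M * n : ℕ)) := by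
  refine ⟨?_, fun hyt => ?_⟩
  · exact rank_span_le_of S _ fun N z hz hzS =>
      (fin_bound ht hy hn z hz (fun i => (hS _ (hzS i)).1) (fun i => (hS _ (hzS i)).2)).1
  · exact rank_span_le_of S _ fun N z hz hzS =>
      (fin_bound ht hy hn z hz (fun i => (hS _ (hzS i)).1) (fun i => (hS _ (hzS i)).2)).2 hyt

end Pool.Agent.TH577.RF
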