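import Pool.Agent.TH577.RF.Main

/-!
# Exponentials of polynomials over number fields
-/

set_option autoImplicit false

namespace Pool.Agent.TH577.RF

open Polynomial Module IntermediateField
open Pool.Agent.W243.TD

theorem tr_over {M : IntermediateField ℚ ℂ} (hM : Algebra.IsAlgebraic ℚ M) {t : ℂ}
    (ht : Transcendental ℚ t) {P : M[X]} (hP : aeval t P = 0) : P = 0 := by
  by_contra hg0
  apply ht
  have h1 : IsAlgebraic M t := ⟨P, hg0, hP⟩
  exact h1.restrictScalars ℚ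

/-- the evaluation map -/
noncomputable def evl (M : IntermediateField ℚ ℂ) (t : ℂ) (k : ℕ) :
    (Fin (k + 1) → M) →ₗ[ℚ] ℂ :=
  AddMonoidHom.toRatLinearMap
    { toFun := fun f => ∑ i, ((f i : M) : ℂ) * t ^ (i : ℕ)
      map_zero' := by simp
      map_add' := by
        intro f g
        rw [← Finset.sum_add_distrib]
        refine Finset.sum_congr rfl fun i _ => ?_
        rw [Pi.add_apply, IntermediateField.coe_add]
        ring }

theorem evl_apply (M : IntermediateField ℚ ℂ) (t : ℂ) (k : ℕ) (f : Fin (k + 1) → M) :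
    evl M t k f = ∑ i, ((f i : M) : ℂ) * t ^ (i : ℕ) := rfl

/-- the polynomial with given coefficients -/
noncomputable def pol {M : IntermediateField ℚ ℂ} {k : ℕ} (f : Fin (k + 1) → M) : M[X] :=
  ∑ i, C (f i) * X ^ (i : ℕ)

theorem aeval_pol {M : IntermediateField ℚ ℂ} (t : ℂ) {k : ℕ} (f : Fin (k + 1) → M) :
    aeval t (pol f) = evl M t k f := by
  rw [pol, map_sum, evl_apply]
  refine Finset.sum_congr rfl fun i _ => ?_
  rw [map_mul, aeval_C, map_pow, aeval_X]
  rfl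

theorem coeff_pol {M : IntermediateField ℚ ℂ} {k : ℕ} (f : Fin (k + 1) → M) (i : Fin (k + 1)) :
    (pol f).coeff i = f i := by
  rw [pol, finsetSum_coeff]
  simp only [coeff_C_mul, coeff_X_pow]
  rw [Finset.sum_eq_single i]
  · simp
  · intro j _ hj
    have : (i : ℕ) ≠ (j : ℕ) := fun h => hj (Fin.ext h.symm)
    simp [this]
  · intro h; exact absurd (Finset.mem_univ i) h

theorem natDegree_pol {M : IntermediateField ℚ ℂ} {k : ℕ} (f : Fin (k + 1) → M) :
    (pol f).natDegree ≤ k := by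
  rw [pol]
  apply natDegree_sum_le_of_forall_le
  intro i _
  exact (natDegree_C_mul_X_pow_le _ _).trans (by omega)

theorem evl_inj {M : IntermediateField ℚ ℂ} (hM : Algebra.IsAlgebraic ℚ M) {t : ℂ}
    (ht : Transcendental ℚ t) (k : ℕ) : Function.Injective (evl M t k) := by
  rw [injective_iff_map_eq_zero]
  intro f hf
  rw [← aeval_pol] at hf
  have h1 := tr_over hM ht hf
  funext i
  rw [← coeff_pol f i, h1]
  rfl

theorem evl_range (M : IntermediateField ℚ ℂ) (t : ℂ) (k : ℕ) (z : ℂ) :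
    z ∈ LinearMap.range (evl M t k) ↔ ∃ P : M[X], P.natDegree ≤ k ∧ z = aeval t P := by
  constructor
  · rintro ⟨f, rfl⟩
    exact ⟨pol f, natDegree_pol f, (aeval_pol t f).symm⟩
  · rintro ⟨P, hP, rfl⟩
    refine ⟨fun i => P.coeff i, ?_⟩
    rw [← aeval_pol]
    congr 1
    ext i
    congr 1
    by_cases hi : i < k + 1
    · exact coeff_pol (fun i : Fin (k + 1) => P.coeff i) ⟨i, hi⟩
    · have e1 : (pol (fun i : Fin (k + 1) => P.coeff i)).coeff i = 0 :=
        coeff_eq_zero_of_natDegree_lt (lt_of_le_of_lt (natDegree_pol _) (by omega))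
      have e2 : P.coeff i = 0 := coeff_eq_zero_of_natDegree_lt (by omega)
      rw [e1, e2]

theorem evl_finrank {M : IntermediateField ℚ ℂ} [FiniteDimensional ℚ M] {t : ℂ}
    (ht : Transcendental ℚ t) (k : ℕ) :
    finrank ℚ (LinearMap.range (evl M t k)) = finrank ℚ M * (k + 1) := by
  have hM : Algebra.IsAlgebraic ℚ M := Algebra.IsAlgebraic.of_finite ℚ M
  rw [LinearMap.finrank_range_of_inj (evl_inj hM ht k), Module.finrank_pi_fintype]
  simp [mul_comm]

/-- the values of the polynomials of degree at most `k` -/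
noncomputable abbrev Pol (M : IntermediateField ℚ ℂ) (t : ℂ) (k : ℕ) : Submodule ℚ ℂ :=
  LinearMap.range (evl M t k)

theorem pol_mul {M : IntermediateField ℚ ℂ} {t : ℂ} {k n : ℕ} {x z : ℂ} (hx : x ∈ Pol M t k)
    (hz : z ∈ Pol M t n) : x * z ∈ Pol M t (n + k) := by
  rw [evl_range] at hx hz ⊢
  obtain ⟨P, hP, rfl⟩ := hx
  obtain ⟨Q, hQ, rfl⟩ := hz
  refine ⟨P * Q, natDegree_mul_le.trans (by omega), by rw [map_mul]⟩

theorem pol_al {M : IntermediateField ℚ ℂ} (hM : Algebra.IsAlgebraic ℚ M) {t : ℂ} {k : ℕ} {x : ℂ}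
    (hx : x ∈ Pol M t k) : Al t x := by
  obtain ⟨f, rfl⟩ := hx
  rw [evl_apply]
  have h1 : ∀ i, Al t (((f i : M) : ℂ) * t ^ (i : ℕ)) := by
    intro i
    have h2 : IsAlgebraic ℚ ((f i : M) : ℂ) := (hM.isAlgebraic (f i)).algebraMap
    have h3 : Al t ((f i : M) : ℂ) := h2.extendScalars (algebraMap ℚ _).injective
    have h4 : Al t t := isAlgebraic_algebraMap
      (⟨t, mem_adjoin_simple_self ℚ t⟩ : IntermediateField.adjoin ℚ {t})
    exact h3.mul (h4.pow _)
  have h5 : ∀ s : Finset (Fin (k + 1)), Al t (∑ i ∈ s, ((f i : M) : ℂ) * t ^ (i : ℕ)) := by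
    intro s
    classical
    induction s using Finset.induction_on with
    | empty => rw [Finset.sum_empty]; exact isAlgebraic_zero
    | insert a s ha ih => rw [Finset.sum_insert ha]; exact (h1 a).add ih
  exact h5 _

theorem exists_sub_finrank (Y : Submodule ℚ ℂ) [FiniteDimensional ℚ Y] {s : ℕ}
    (hs : s ≤ finrank ℚ Y) : ∃ X : Submodule ℚ ℂ, X ≤ Y ∧ FiniteDimensional ℚ X ∧
      finrank ℚ X = s := by
  classical
  let b := finBasis ℚ Y
  let v : Fin s → ℂ := fun i => ((b (Fin.castLE hs i) : Y) : ℂ)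
  have hv : LinearIndependent ℚ v := by
    have h1 : LinearIndependent ℚ (fun i => ((b i : Y) : ℂ)) :=
      b.linearIndependent.map' Y.subtype (Submodule.ker_subtype Y)
    exact h1.comp _ (Fin.castLE_injective hs)
  refine ⟨Submodule.span ℚ (Set.range v), ?_, FiniteDimensional.span_of_finite ℚ
    (Set.finite_range v), ?_⟩
  · rw [Submodule.span_le]
    rintro _ ⟨i, rfl⟩
    exact (b (Fin.castLE hs i) : Y).2
  · rw [finrank_span_eq_card hv, Fintype.card_fin]

theorem pol_bound (M : IntermediateField ℚ ℂ) [FiniteDimensional ℚ M] {t y : ℂ}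
    (ht : Transcendental ℚ t) (hy : y ≠ 0) (n : ℕ) (W : Submodule ℚ ℂ)
    (hW : ∀ z ∈ W, z ∈ Pol M t n ∧ Al t (Complex.exp (y * z))) (k s : ℕ)
    (hs : s ≤ finrank ℚ M * (k + 1)) :
    s * finrank ℚ W ≤ finrank ℚ M * (n + k + 1) + 2 * (s * (s - 1)) ∧
    (Al t y → s * finrank ℚ W ≤ finrank ℚ M * (n + k + 1) + s * (s - 1)) := by
  classical
  have hM : Algebra.IsAlgebraic ℚ M := Algebra.IsAlgebraic.of_finite ℚ M
  have hWle : W ≤ Pol M t n := fun z hz => (hW z hz).1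
  have hWfd : FiniteDimensional ℚ W := Submodule.finiteDimensional_of_le hWle
  obtain ⟨X, hX, hXfd, hXs⟩ := exists_sub_finrank (Pol M t k) (s := s)
    (by rw [evl_finrank ht]; exact hs)
  refine ⟨?_, fun hyt => ?_⟩
  · have h := prod2 ht hy X W (Pol M t (n + k)) (fun z hz => pol_al hM (hWle hz))
      (fun z hz => (hW z hz).2) (fun x hx z hz => pol_mul (hX hx) (hWle hz))
    rwa [evl_finrank ht, hXs] at h
  · let ψ : ℂ →ₗ[ℚ] ℂ := LinearMap.mulLeft ℚ y
    have hψ : Function.Injective ψ := mul_right_injective₀ hy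
    have fr : ∀ V : Submodule ℚ ℂ, finrank ℚ (V.map ψ) = finrank ℚ V := fun V =>
      (Submodule.equivMapOfInjective ψ hψ V).finrank_eq.symm
    have h := prod1 ht X (W.map ψ) ((Pol M t (n + k)).map ψ)
      (by rintro _ ⟨z, hz, rfl⟩; exact hyt.mul (pol_al hM (hWle hz)))
      (by rintro _ ⟨z, hz, rfl⟩; exact (hW z hz).2)
      (by
        rintro x hx _ ⟨z, hz, rfl⟩
        refine ⟨x * z, pol_mul (hX hx) (hWle hz), ?_⟩
        show y * (x * z) = x * (y * z)
        ring)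
    rwa [fr, fr, evl_finrank ht, hXs] at h

/-- numerical consequence -/
theorem num_one {D n w : ℕ} (h : ∀ k s : ℕ, s ≤ D * (k + 1) → s * w ≤ D * (n + k + 1) + s * (s - 1))
    (hD : 1 ≤ D) : w ^ 2 ≤ D ^ 2 + 4 * D * n := by
  -- `m w ≤ n + D m ^ 2`
  have h1 : ∀ m : ℕ, m * w ≤ n + D * m ^ 2 := by
    intro m
    rcases m with _ | k
    · simp
    · have h2 := h k (D * (k + 1)) le_rfl
      obtain ⟨q, hq⟩ : ∃ q, D * (k + 1) = q + 1 := ⟨D * (k + 1) - 1, by
        have : 1 ≤ D * (k + 1) := Nat.mul_pos hD (by omega)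
        omega⟩
      have h3 : D * (k + 1) * (D * (k + 1) - 1) + D * (k + 1) = D * (k + 1) * (D * (k + 1)) := by
        rw [hq]; simp only [Nat.add_sub_cancel]; ring
      have h4 : D * ((k + 1) * w) ≤ D * (n + D * (k + 1) ^ 2) := by nlinarith
      exact Nat.le_of_mul_le_mul_left h4 hD
  -- `m` = the integer next to `w / (2 D)`
  obtain ⟨m, r, hr, hw⟩ : ∃ m r, r < 2 * D ∧ w + D = 2 * D * m + r :=
    ⟨(w + D) / (2 * D), (w + D) % (2 * D), Nat.mod_lt _ (by omega), (Nat.div_add_mod _ _).symm⟩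
  have h5 := h1 m
  zify at h5 hw hr ⊢
  have h6 : (w : ℤ) = 2 * D * m + r - D := by linarith
  have h7 : (0 : ℤ) ≤ r := Int.natCast_nonneg r
  have h8 : (1 : ℤ) ≤ D := by exact_mod_cast hD
  have h9 : ((r : ℤ) - D) ^ 2 ≤ D ^ 2 := by nlinarith
  nlinarith

theorem num_two {D n w : ℕ}
    (h : ∀ k s : ℕ, s ≤ D * (k + 1) → s * w ≤ D * (n + k + 1) + 2 * (s * (s - 1)))
    (hD : 1 ≤ D) : (w + 1) ^ 2 ≤ 4 * D ^ 2 + 8 * D * n := by
  have h1 : ∀ m : ℕ, m * (w + 1) ≤ n + 2 * D * m ^ 2 := by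
    intro m
    rcases m with _ | k
    · simp
    · have h2 := h k (D * (k + 1)) le_rfl
      obtain ⟨q, hq⟩ : ∃ q, D * (k + 1) = q + 1 := ⟨D * (k + 1) - 1, by
        have : 1 ≤ D * (k + 1) := Nat.mul_pos hD (by omega)
        omega⟩
      have h3 : D * (k + 1) * (D * (k + 1) - 1) + D * (k + 1) = D * (k + 1) * (D * (k + 1)) := by
        rw [hq]; simp only [Nat.add_sub_cancel]; ring
      have h4 : D * ((k + 1) * (w + 1)) ≤ D * (n + 2 * D * (k + 1) ^ 2) := by nlinarith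
      exact Nat.le_of_mul_le_mul_left h4 hD
  obtain ⟨m, r, hr, hw⟩ : ∃ m r, r < 4 * D ∧ w + 1 + 2 * D = 4 * D * m + r :=
    ⟨(w + 1 + 2 * D) / (4 * D), (w + 1 + 2 * D) % (4 * D), Nat.mod_lt _ (by omega),
      (Nat.div_add_mod _ _).symm⟩
  have h5 := h1 m
  zify at h5 hw hr ⊢
  have h6 : (w : ℤ) + 1 = 4 * D * m + r - 2 * D := by linarith
  have h7 : (0 : ℤ) ≤ r := Int.natCast_nonneg r
  have h8 : (1 : ℤ) ≤ D := by exact_mod_cast hD
  have h9 : ((r : ℤ) - 2 * D) ^ 2 ≤ (2 * D) ^ 2 := by nlinarith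
  rw [h6] at h5 ⊢
  nlinarith

end Pool.Agent.TH577.RF
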