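import Pool.Agent.TH577.RF.Pol

/-!
# Real number fields
-/

set_option autoImplicit false

namespace Pool.Agent.TH577.RF

open Polynomial Module IntermediateField
open Pool.Agent.W243.TD

theorem dep_al {t w : ℂ} (ht : Transcendental ℚ t) (h : ¬ AlgebraicIndependent ℚ ![t, w]) :
    Al t w := by
  by_contra hb
  exact h (Pool.Agent.W242.GG.algInd_pair ht hb)

theorem real_dep {a b : ℝ} (h : ¬ AlgebraicIndependent ℚ ![a, b]) :
    ¬ AlgebraicIndependent ℚ ![(a : ℂ), (b : ℂ)] := by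
  intro h1
  apply h
  have h2 : ![(a : ℂ), (b : ℂ)] = (Algebra.algHom ℚ ℝ ℂ) ∘ ![a, b] := by
    funext i
    fin_cases i <;> rfl
  rw [h2] at h1
  exact (AlgHom.algebraicIndependent_iff (Algebra.algHom ℚ ℝ ℂ)
    (algebraMap ℝ ℂ).injective).1 h1

theorem real_al {t w : ℝ} (ht : Transcendental ℚ (t : ℂ)) (h : ¬ AlgebraicIndependent ℚ ![t, w]) :
    Al (t : ℂ) (w : ℂ) := dep_al ht (real_dep h)

theorem al_self (t : ℂ) : Al t t := isAlgebraic_algebraMap
  (⟨t, mem_adjoin_simple_self ℚ t⟩ : IntermediateField.adjoin ℚ {t})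

theorem al_of_alg {t x : ℂ} (h : IsAlgebraic ℚ x) : Al t x :=
  h.extendScalars (algebraMap ℚ _).injective

theorem real_alg {x : ℝ} (h : IsAlgebraic ℚ x) : IsAlgebraic ℚ (x : ℂ) := h.algebraMap (A := ℂ)

/-- the complex copy of a real field -/
noncomputable def cpx (M : IntermediateField ℚ ℝ) : IntermediateField ℚ ℂ :=
  (Subfield.map (algebraMap ℝ ℂ) M.toSubfield).toIntermediateField (by
    intro q
    refine ⟨algebraMap ℚ ℝ q, M.algebraMap_mem q, ?_⟩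
    simp)

theorem mem_cpx {M : IntermediateField ℚ ℝ} (x : M) : (((x : M) : ℝ) : ℂ) ∈ cpx M :=
  ⟨x, x.2, rfl⟩

/-- the isomorphism -/
noncomputable def cEqv (M : IntermediateField ℚ ℝ) : M ≃+* cpx M :=
  RingEquiv.ofBijective
    ({ toFun := fun x => ⟨((x : ℝ) : ℂ), mem_cpx x⟩
       map_one' := Subtype.ext (by simp)
       map_mul' := fun x y => Subtype.ext (by simp)
       map_zero' := Subtype.ext (by simp)
       map_add' := fun x y => Subtype.ext (by simp) } : M →+* cpx M)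
    ⟨fun x y h => by
      have h1 := congrArg (fun u : cpx M => (u : ℂ)) h
      have h2 : (((x : M) : ℝ) : ℂ) = ((y : M) : ℝ) := h1
      exact Subtype.ext (by exact_mod_cast h2), fun x => by
      obtain ⟨_, y, hy, rfl⟩ := x
      exact ⟨⟨y, hy⟩, rfl⟩⟩

theorem cEqv_coe (M : IntermediateField ℚ ℝ) (x : M) : ((cEqv M x : cpx M) : ℂ) = (x : ℝ) := rfl

theorem cpx_finrank (M : IntermediateField ℚ ℝ) [FiniteDimensional ℚ M] :
    FiniteDimensional ℚ (cpx M) ∧ finrank ℚ (cpx M) = finrank ℚ M := by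
  let f : M ≃ₗ[ℚ] cpx M :=
    LinearEquiv.ofBijective (AddMonoidHom.toRatLinearMap ((cEqv M).toAddEquiv.toAddMonoidHom))
      (cEqv M).bijective
  exact ⟨Module.Finite.equiv f, f.finrank_eq.symm⟩

theorem aeval_cpx (M : IntermediateField ℚ ℝ) (t : ℝ) (P : M[X]) :
    aeval (t : ℂ) (P.map (cEqv M : M →+* cpx M)) = ((aeval t P : ℝ) : ℂ) := by
  have h1 : ((aeval t P : ℝ) : ℂ) = (algebraMap ℝ ℂ) (eval₂ (algebraMap M ℝ) t P) := rfl
  rw [h1, hom_eval₂, aeval_def, eval₂_map]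
  rfl

theorem val_cpx {M : IntermediateField ℚ ℝ} {t : ℝ} {n : ℕ} {x : ℝ} (hx : x ∈ Val M t n) :
    (x : ℂ) ∈ Val (cpx M) (t : ℂ) n := by
  obtain ⟨P, Q, hP, hQ, hQt, rfl⟩ := hx
  refine ⟨P.map (cEqv M : M →+* cpx M), Q.map (cEqv M : M →+* cpx M), natDegree_map_le.trans hP,
    natDegree_map_le.trans hQ, ?_, ?_⟩
  · rw [aeval_cpx]
    exact_mod_cast hQt
  · rw [aeval_cpx, aeval_cpx]
    push_cast
    rfl

/-- the values at `t` of the polynomials of degree at most `n` with coefficients in `M` -/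
def PVal {E : Type} [Field E] [Algebra ℚ E] (M : IntermediateField ℚ E) (t : E) (n : ℕ) : Set E :=
  {z | ∃ P : M[X], P.natDegree ≤ n ∧ z = aeval t P}

theorem pval_cpx {M : IntermediateField ℚ ℝ} {t : ℝ} {n : ℕ} {x : ℝ} (hx : x ∈ PVal M t n) :
    (x : ℂ) ∈ PVal (cpx M) (t : ℂ) n := by
  obtain ⟨P, hP, rfl⟩ := hx
  exact ⟨P.map (cEqv M : M →+* cpx M), natDegree_map_le.trans hP, (aeval_cpx M t P).symm⟩

/-- the inclusion of the real numbers -/
noncomputable def inc : ℝ →ₗ[ℚ] ℂ := AddMonoidHom.toRatLinearMap (algebraMap ℝ ℂ : ℝ →+ ℂ)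

theorem inc_inj : Function.Injective inc := (algebraMap ℝ ℂ).injective

theorem rank_inc (S : Set ℝ) : Module.rank ℚ (Submodule.span ℚ S) =
    Module.rank ℚ (Submodule.span ℚ (inc '' S)) := by
  have h1 := (Submodule.equivMapOfInjective inc inc_inj (Submodule.span ℚ S)).rank_eq
  rw [h1, Submodule.map_span]

theorem al_span {t y : ℂ} {S : Set ℂ} (h : ∀ z ∈ S, Al t (Complex.exp (y * z))) :
    ∀ z ∈ Submodule.span ℚ S, Al t (Complex.exp (y * z)) := by
  intro z hz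
  have h1 := Submodule.mem_map_of_mem (f := LinearMap.mulLeft ℚ y) hz
  rw [Submodule.map_span] at h1
  have h2 : (LinearMap.mulLeft ℚ y) '' S = Set.range (fun s : S => y * (s : ℂ)) := by
    ext w
    constructor
    · rintro ⟨s, hs, rfl⟩
      exact ⟨⟨s, hs⟩, rfl⟩
    · rintro ⟨s, rfl⟩
      exact ⟨s, s.2, rfl⟩
  rw [h2] at h1
  exact al_exp_span (f := fun s : S => y * (s : ℂ)) (fun s => h s s.2) _ h1

/-- polynomials, sets -/
theorem pol_rank (M : IntermediateField ℚ ℂ) [FiniteDimensional ℚ M] {t y : ℂ}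
    (ht : Transcendental ℚ t) (hy : y ≠ 0) (n : ℕ) (S : Set ℂ)
    (hS : ∀ z ∈ S, z ∈ PVal M t n ∧ Al t (Complex.exp (y * z))) :
    ∃ w : ℕ, Module.rank ℚ (Submodule.span ℚ S) = w ∧
      (w + 1) ^ 2 ≤ 4 * finrank ℚ M ^ 2 + 8 * finrank ℚ M * n ∧
      (Al t y → w ^ 2 ≤ finrank ℚ M ^ 2 + 4 * finrank ℚ M * n) := by
  have hSW : ∀ z ∈ Submodule.span ℚ S, z ∈ Pol M t n ∧ Al t (Complex.exp (y * z)) := by
    intro z hz
    refine ⟨?_, al_span (fun z hz => (hS z hz).2) z hz⟩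
    have h1 : Submodule.span ℚ S ≤ Pol M t n := by
      rw [Submodule.span_le]
      intro u hu
      exact (evl_range M t n u).2 (hS u hu).1
    exact h1 hz
  have hWle : Submodule.span ℚ S ≤ Pol M t n := fun z hz => (hSW z hz).1
  have hWfd : FiniteDimensional ℚ (Submodule.span ℚ S) := Submodule.finiteDimensional_of_le hWle
  have hD : 1 ≤ finrank ℚ M := Module.finrank_pos
  refine ⟨finrank ℚ (Submodule.span ℚ S), (Module.finrank_eq_rank _ _).symm, ?_, fun hyt => ?_⟩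
  · exact num_two (fun k s hs => (pol_bound M ht hy n _ hSW k s hs).1) hD
  · exact num_one (fun k s hs => (pol_bound M ht hy n _ hSW k s hs).2 hyt) hD

/-- rational functions, real numbers -/
theorem real_rank (M : IntermediateField ℚ ℝ) [FiniteDimensional ℚ M] {t : ℝ} {y : ℂ}
    (ht : Transcendental ℚ (t : ℂ)) (hy : y ≠ 0) {n : ℕ} (hn : 1 ≤ n) (S : Set ℝ)
    (hS : ∀ x ∈ S, x ∈ Val M t n ∧ Al t (Complex.exp (y * x))) :
    Module.rank ℚ (Submodule.span ℚ S) ≤ (8 * finrank ℚ M * n - 2 : ℕ) ∧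
    (Al t y → Module.rank ℚ (Submodule.span ℚ S) ≤ (4 * finrank ℚ M * n : ℕ)) := by
  obtain ⟨hfd, hfr⟩ := cpx_finrank M
  have h := rank_bound (cpx M) ht hy hn (inc '' S) (by
    rintro _ ⟨x, hx, rfl⟩
    exact ⟨val_cpx (hS x hx).1, (hS x hx).2⟩)
  rw [← rank_inc, hfr] at h
  exact h

/-- polynomials, real numbers -/
theorem real_pol (M : IntermediateField ℚ ℝ) [FiniteDimensional ℚ M] {t : ℝ} {y : ℂ}
    (ht : Transcendental ℚ (t : ℂ)) (hy : y ≠ 0) (n : ℕ) (S : Set ℝ)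
    (hS : ∀ x ∈ S, x ∈ PVal M t n ∧ Al t (Complex.exp (y * x))) :
    ∃ w : ℕ, Module.rank ℚ (Submodule.span ℚ S) = w ∧
      (w + 1) ^ 2 ≤ 4 * finrank ℚ M ^ 2 + 8 * finrank ℚ M * n ∧
      (Al t y → w ^ 2 ≤ finrank ℚ M ^ 2 + 4 * finrank ℚ M * n) := by
  obtain ⟨hfd, hfr⟩ := cpx_finrank M
  have h := pol_rank (cpx M) ht hy n (inc '' S) (by
    rintro _ ⟨x, hx, rfl⟩
    exact ⟨pval_cpx (hS x hx).1, (hS x hx).2⟩)
  rw [← rank_inc, hfr] at h
  exact h

end Pool.Agent.TH577.RF
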